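import Pool.Agent.MVK.Stmts

/-!
# Squad MVK, row KM1: the case of one letter (author helper23)
-/

set_option autoImplicit false

namespace Pool.Agent.MVK.H23

open Pool.Agent.Helper14_MV Pool.Agent.Helper2_MV Pool.Agent.MVD Pool.Agent.MVK

variable {β : FIC}

theorem rtr {a b c : List ℕ} (h : RR β a b) (h' : RR β b c) : RR β a c := β.trans h h'

theorem flat_rep (g : ℕ → List ℕ) (h : g 0 = [0]) (n : ℕ) :
    (List.replicate n 0).flatMap g = List.replicate n 0 := by
  induction n with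
  | zero => rfl
  | succ n ih =>
    rw [List.replicate_succ, List.flatMap_cons, h, ih]
    rfl

/-- the substitution which adds letters at the separators -/
def sg (b c d e : ℕ) (x : ℕ) : List ℕ :=
  if x = 2 then List.replicate b 0 ++ 2 :: List.replicate c 0
  else if x = 5 then List.replicate d 0 ++ 5 :: List.replicate e 0 else [x]

theorem v5_gen (g : ℕ → List ℕ) (h0 : g 0 = [0]) (s t i j k l f : ℕ) :
    (V5 s t i j k l f).flatMap g = List.replicate i 0 ++ (g 1 ++ (List.replicate j 0 ++ (g s ++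
      (List.replicate k 0 ++ (g 1 ++ (List.replicate l 0 ++ (g t ++ List.replicate f 0))))))) := by
  unfold V5
  rw [List.flatMap_append, flat_rep g h0, List.flatMap_cons, List.flatMap_append, flat_rep g h0,
    List.flatMap_cons, List.flatMap_append, flat_rep g h0, List.flatMap_cons, List.flatMap_append,
    flat_rep g h0, List.flatMap_cons, flat_rep g h0]

theorem v5_sg (i j k l f a b c d e : ℕ) :
    List.replicate a 0 ++ (V5 2 5 i j k l f).flatMap (sg b c d e) =
      V5 2 5 (i + a) (j + b) (k + c) (l + d) (f + e) := by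
  rw [v5_gen _ rfl]
  have s1 : sg b c d e 1 = [1] := rfl
  have s2 : sg b c d e 2 = List.replicate b 0 ++ 2 :: List.replicate c 0 := rfl
  have s5 : sg b c d e 5 = List.replicate d 0 ++ 5 :: List.replicate e 0 := rfl
  unfold V5
  rw [s1, s2, s5, Nat.add_comm i a, Nat.add_comm k c, Nat.add_comm f e]
  simp only [List.replicate_add, List.append_assoc, List.cons_append, List.nil_append]

theorem rr_add {i j k l f i' j' k' l' f' : ℕ}
    (h : RR β (V5 2 5 i j k l f) (V5 2 5 i' j' k' l' f')) (a b c d e : ℕ) :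
    RR β (V5 2 5 (i + a) (j + b) (k + c) (l + d) (f + e))
      (V5 2 5 (i' + a) (j' + b) (k' + c) (l' + d) (f' + e)) := by
  have h1 := (RR.refl (β := β) (List.replicate a 0)).append (h.sub (sg b c d e))
  rw [v5_sg, v5_sg] at h1
  exact h1

/-- exchange of the separators -/
def ex (x : ℕ) : List ℕ := if x = 2 then [5] else if x = 5 then [2] else [x]

theorem v5_ex (i j k l f : ℕ) : (V5 2 5 i j k l f).flatMap ex = V5 5 2 i j k l f := by
  rw [v5_gen _ rfl]
  rfl

theorem v5_ex' (i j k l f : ℕ) : (V5 5 2 i j k l f).flatMap ex = V5 2 5 i j k l f := by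
  rw [v5_gen _ rfl]
  rfl

theorem rr_sw {i j k l f i' j' k' l' f' : ℕ}
    (h : RR β (V5 2 5 i j k l f) (V5 2 5 i' j' k' l' f')) :
    RR β (V5 5 2 i j k l f) (V5 5 2 i' j' k' l' f') := by
  have h1 := h.sub ex
  rw [v5_ex, v5_ex] at h1
  exact h1

theorem rr_sw' {i j k l f i' j' k' l' f' : ℕ}
    (h : RR β (V5 5 2 i j k l f) (V5 5 2 i' j' k' l' f')) :
    RR β (V5 2 5 i j k l f) (V5 2 5 i' j' k' l' f') := by
  have h1 := h.sub ex
  rw [v5_ex', v5_ex'] at h1
  exact h1

theorem kd_iff (s t i j k l f : ℕ) (hs : s ≠ 0) (ht : t ≠ 0) :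
    Kd β 0 (V5 s t i j k l f) ↔
      RR β (V5 s t i j k l f) (V5 s t 0 0 0 0 (i + j + k + l + f)) := by
  unfold Kd
  have e1 : (V5 s t i j k l f).filter (fun c => decide (c ≠ 0)) = [1, s, 1, t] := by
    simp [V5, List.filter_append, List.filter_replicate, List.filter_cons, hs, ht]
  have e2 : (V5 s t i j k l f).count 0 = i + j + k + l + f := by
    simp [V5, List.count_append, List.count_replicate, List.count_cons, hs, ht]
    ring
  rw [e1, e2]
  have e3 : [1, s, 1, t] ++ List.replicate (i + j + k + l + f) 0 =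
      V5 s t 0 0 0 0 (i + j + k + l + f) := by
    simp [V5]
  rw [e3]

theorem kd_sw {i j k l f : ℕ} (h : Kd β 0 (V5 2 5 i j k l f)) : Kd β 0 (V5 5 2 i j k l f) := by
  rw [kd_iff _ _ _ _ _ _ _ (by norm_num) (by norm_num)] at h ⊢
  exact rr_sw h

section

variable (ab : AbsStmt) (hQ : CQ β)

include ab in
theorem kd_tr {w w' : List ℕ} (h : RR β w w') (h' : Kd β 0 w') : Kd β 0 w :=
  (ab β).2 0 w w' h h'

include ab hQ

theorem kd_big {i j k l f : ℕ} (h : 2 ≤ i ∨ 2 ≤ j ∨ 2 ≤ k ∨ 2 ≤ l ∨ 2 ≤ f) :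
    Kd β 0 (V5 2 5 i j k l f) := by
  have key : ∀ p q : List ℕ, Kd β 0 (p ++ 0 :: 0 :: q) := fun p q => (ab β).1 hQ p q 0
  rcases h with h | h | h | h | h
  · obtain ⟨n, rfl⟩ := Nat.exists_eq_add_of_le' h
    have e1 := key [] (List.replicate n 0 ++ 1 :: (List.replicate j 0 ++ 2 ::
      (List.replicate k 0 ++ 1 :: (List.replicate l 0 ++ 5 :: List.replicate f 0))))
    simpa [V5, List.replicate_succ] using e1
  · obtain ⟨n, rfl⟩ := Nat.exists_eq_add_of_le' h
    have e1 := key (List.replicate i 0 ++ [1]) (List.replicate n 0 ++ 2 ::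
      (List.replicate k 0 ++ 1 :: (List.replicate l 0 ++ 5 :: List.replicate f 0)))
    simpa [V5, List.replicate_succ, List.append_assoc] using e1
  · obtain ⟨n, rfl⟩ := Nat.exists_eq_add_of_le' h
    have e1 := key (List.replicate i 0 ++ 1 :: (List.replicate j 0 ++ [2])) (List.replicate n 0 ++
      1 :: (List.replicate l 0 ++ 5 :: List.replicate f 0))
    simpa [V5, List.replicate_succ, List.append_assoc] using e1
  · obtain ⟨n, rfl⟩ := Nat.exists_eq_add_of_le' h
    have e1 := key (List.replicate i 0 ++ 1 :: (List.replicate j 0 ++ 2 ::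
      (List.replicate k 0 ++ [1]))) (List.replicate n 0 ++ 5 :: List.replicate f 0)
    simpa [V5, List.replicate_succ, List.append_assoc] using e1
  · obtain ⟨n, rfl⟩ := Nat.exists_eq_add_of_le' h
    have e1 := key (List.replicate i 0 ++ 1 :: (List.replicate j 0 ++ 2 ::
      (List.replicate k 0 ++ 1 :: (List.replicate l 0 ++ [5])))) (List.replicate n 0)
    simpa [V5, List.replicate_succ, List.append_assoc] using e1

theorem kd_self {i j k l f a b c d e : ℕ}
    (h : RR β (V5 2 5 i j k l f) (V5 2 5 (i + a) (j + b) (k + c) (l + d) (f + e)))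
    (hE : 1 ≤ a ∨ 1 ≤ b ∨ 1 ≤ c ∨ 1 ≤ d ∨ 1 ≤ e) : Kd β 0 (V5 2 5 i j k l f) := by
  refine kd_tr ab (rtr h (rr_add h a b c d e)) (kd_big ab hQ ?_)
  omega

theorem kd_up {i j k l f : ℕ} (h : Kd β 0 (V5 2 5 i j k l f)) (hn : 2 ≤ i + j + k + l + f)
    (a b c d e : ℕ) : Kd β 0 (V5 2 5 (i + a) (j + b) (k + c) (l + d) (f + e)) := by
  rw [kd_iff _ _ _ _ _ _ _ (by norm_num) (by norm_num)] at h
  refine kd_tr ab (rr_add h a b c d e) (kd_big ab hQ ?_)
  omega

/-- erase `1`, change the separators -/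
def ta (p q : List ℕ) (x : ℕ) : List ℕ :=
  if x = 1 then [] else if x = 2 then p else if x = 5 then q else [x]

omit ab hQ in
theorem v5_ta (p q : List ℕ) (i j k l f : ℕ) : (V5 2 5 i j k l f).flatMap (ta p q) =
    List.replicate (i + j) 0 ++ (p ++ (List.replicate (k + l) 0 ++ (q ++ List.replicate f 0))) := by
  have s1 : ta p q 1 = [] := rfl
  have s2 : ta p q 2 = p := rfl
  have s5 : ta p q 5 = q := rfl
  rw [v5_gen _ rfl, s1, s2, s5]
  simp only [List.replicate_add, List.append_assoc, List.nil_append]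

omit ab hQ in
theorem v5_back (i j k l f : ℕ) (h1 : i + j ≤ 1) (h2 : k + l ≤ 1) :
    (if j = 0 then [] else [1]) ++ (List.replicate (i + j) 0 ++
      (((if j = 0 then [1] else []) ++ 2 :: (if l = 0 then [] else [1])) ++
        (List.replicate (k + l) 0 ++ (((if l = 0 then [1] else []) ++ [5]) ++
          List.replicate f 0)))) = V5 2 5 i j k l f := by
  by_cases hj : j = 0
  · subst hj
    by_cases hl : l = 0
    · subst hl
      simp [V5]
    · have hl1 : l = 1 := by omega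
      have hk0 : k = 0 := by omega
      subst hl1
      subst hk0
      simp [V5]
  · have hj1 : j = 1 := by omega
    have hi0 : i = 0 := by omega
    subst hj1
    subst hi0
    by_cases hl : l = 0
    · subst hl
      simp [V5]
    · have hl1 : l = 1 := by omega
      have hk0 : k = 0 := by omega
      subst hl1
      subst hk0
      simp [V5]

theorem clm1 {i j k l f : ℕ} (h : RR β (V5 2 5 1 1 0 0 0) (V5 2 5 i j k l f))
    (hne : ¬ (i = 1 ∧ j = 1 ∧ k = 0 ∧ l = 0 ∧ f = 0)) :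
    Kd β 0 (V5 2 5 1 1 0 0 0) ∨ (1 ≤ k ∧ 1 ≤ l) := by
  by_cases h2 : 2 ≤ i ∨ 2 ≤ j ∨ 2 ≤ k ∨ 2 ≤ l ∨ 2 ≤ f
  · exact Or.inl (kd_tr ab h (kd_big ab hQ h2))
  by_cases h3 : 1 ≤ i ∧ 1 ≤ j
  · left
    have e1 : i = 1 + (i - 1) := by omega
    have e2 : j = 1 + (j - 1) := by omega
    have e3 : k = 0 + k := by omega
    have e4 : l = 0 + l := by omega
    have e5 : f = 0 + f := by omega
    rw [e1, e2, e3, e4, e5] at h
    exact kd_self ab hQ h (by omega)
  by_cases h4 : 1 ≤ k ∧ 1 ≤ l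
  · exact Or.inr h4
  left
  refine kd_tr ab h ?_
  have h5 := (RR.refl (β := β) (if j = 0 then [] else [1])).append (h.sub (ta
    ((if j = 0 then [1] else []) ++ 2 :: (if l = 0 then [] else [1]))
    ((if l = 0 then [1] else []) ++ [5])))
  rw [v5_ta, v5_ta, v5_back i j k l f (by omega) (by omega)] at h5
  refine kd_tr ab h5.symm ?_
  have e1 := (ab β).1 hQ (if j = 0 then [] else [1])
    (((if j = 0 then [1] else []) ++ 2 :: (if l = 0 then [] else [1])) ++
      (List.replicate (0 + 0) 0 ++ (((if l = 0 then [1] else []) ++ [5]) ++ List.replicate 0 0))) 0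
  exact e1

theorem clm2 {i j k l f : ℕ} (h : RR β (V5 2 5 0 0 1 1 0) (V5 2 5 i j k l f))
    (hne : ¬ (i = 0 ∧ j = 0 ∧ k = 1 ∧ l = 1 ∧ f = 0)) :
    Kd β 0 (V5 2 5 0 0 1 1 0) ∨ (1 ≤ i ∧ 1 ≤ j) := by
  by_cases h2 : 2 ≤ i ∨ 2 ≤ j ∨ 2 ≤ k ∨ 2 ≤ l ∨ 2 ≤ f
  · exact Or.inl (kd_tr ab h (kd_big ab hQ h2))
  by_cases h3 : 1 ≤ k ∧ 1 ≤ l
  · left
    have e1 : i = 0 + i := by omega
    have e2 : j = 0 + j := by omega
    have e3 : k = 1 + (k - 1) := by omega
    have e4 : l = 1 + (l - 1) := by omega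
    have e5 : f = 0 + f := by omega
    rw [e1, e2, e3, e4, e5] at h
    exact kd_self ab hQ h (by omega)
  by_cases h4 : 1 ≤ i ∧ 1 ≤ j
  · exact Or.inr h4
  left
  refine kd_tr ab h ?_
  have h5 := (RR.refl (β := β) (if j = 0 then [] else [1])).append (h.sub (ta
    ((if j = 0 then [1] else []) ++ 2 :: (if l = 0 then [] else [1]))
    ((if l = 0 then [1] else []) ++ [5])))
  rw [v5_ta, v5_ta, v5_back i j k l f (by omega) (by omega)] at h5
  refine kd_tr ab h5.symm ?_
  have e1 := (ab β).1 hQ ((if j = 0 then [] else [1]) ++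
    ((if j = 0 then [1] else []) ++ 2 :: (if l = 0 then [] else [1])))
    (((if l = 0 then [1] else []) ++ [5]) ++ List.replicate 0 0) 0
  have e2 : (if j = 0 then [] else [1]) ++
    ((if j = 0 then [1] else []) ++ 2 :: (if l = 0 then [] else [1])) ++
      0 :: 0 :: (((if l = 0 then [1] else []) ++ [5]) ++ List.replicate 0 0) =
    (if j = 0 then [] else [1]) ++ (List.replicate (0 + 0) 0 ++
      (((if j = 0 then [1] else []) ++ 2 :: (if l = 0 then [] else [1])) ++
        (List.replicate (1 + 1) 0 ++ (((if l = 0 then [1] else []) ++ [5]) ++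
          List.replicate 0 0)))) := by
    simp [List.append_assoc, List.replicate_succ]
  rw [e2] at e1
  exact e1

theorem fin {i j k l f i' j' k' l' f' : ℕ}
    (h : RR β (V5 2 5 1 1 0 0 0) (V5 2 5 i j k l f))
    (hne : ¬ (i = 1 ∧ j = 1 ∧ k = 0 ∧ l = 0 ∧ f = 0))
    (hne2 : ¬ (i = 0 ∧ j = 0 ∧ k = 1 ∧ l = 1 ∧ f = 0))
    (h' : RR β (V5 2 5 0 0 1 1 0) (V5 2 5 i' j' k' l' f'))
    (hne' : ¬ (i' = 0 ∧ j' = 0 ∧ k' = 1 ∧ l' = 1 ∧ f' = 0)) :
    Kd β 0 (V5 2 5 1 1 0 0 0) ∧ Kd β 0 (V5 2 5 0 0 1 1 0) := by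
  -- from `w1` to `w2`
  have s2 : Kd β 0 (V5 2 5 1 1 0 0 0) → (1 ≤ i' ∧ 1 ≤ j') → Kd β 0 (V5 2 5 0 0 1 1 0) := by
    intro hk hij
    have h1 := kd_up ab hQ hk (by norm_num) (i' - 1) (j' - 1) k' l' f'
    have e1 : 1 + (i' - 1) = i' := by omega
    have e2 : 1 + (j' - 1) = j' := by omega
    rw [e1, e2, Nat.zero_add, Nat.zero_add, Nat.zero_add] at h1
    exact kd_tr ab h' h1
  have s1 : Kd β 0 (V5 2 5 0 0 1 1 0) → (1 ≤ k ∧ 1 ≤ l) → Kd β 0 (V5 2 5 1 1 0 0 0) := by
    intro hk hkl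
    have h1 := kd_up ab hQ hk (by norm_num) i j (k - 1) (l - 1) f
    have e1 : 1 + (k - 1) = k := by omega
    have e2 : 1 + (l - 1) = l := by omega
    rw [e1, e2, Nat.zero_add, Nat.zero_add, Nat.zero_add] at h1
    exact kd_tr ab h h1
  rcases clm1 ab hQ h hne with hk1 | hE1
  · rcases clm2 ab hQ h' hne' with hk2 | hE2
    · exact ⟨hk1, hk2⟩
    · exact ⟨hk1, s2 hk1 hE2⟩
  · rcases clm2 ab hQ h' hne' with hk2 | hE2
    · exact ⟨s1 hk2 hE1, hk2⟩
    · have h1 := rr_add h' i j (k - 1) (l - 1) f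
      have e1 : 1 + (k - 1) = k := by omega
      have e2 : 1 + (l - 1) = l := by omega
      rw [e1, e2, Nat.zero_add, Nat.zero_add, Nat.zero_add] at h1
      have h2 := rtr h h1
      have e3 : i' + i = 1 + (i' - 1 + i) := by omega
      have e4 : j' + j = 1 + (j' - 1 + j) := by omega
      have e5 : k' + (k - 1) = 0 + (k' + (k - 1)) := by omega
      have e6 : l' + (l - 1) = 0 + (l' + (l - 1)) := by omega
      have e7 : f' + f = 0 + (f' + f) := by omega
      rw [e3, e4, e5, e6, e7] at h2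
      have hk1 := kd_self ab hQ h2 (by omega)
      exact ⟨hk1, s2 hk1 hE2⟩

end

/-- a list without letters different from `0` -/
theorem all_zero {l : List ℕ} (h : ∀ x ∈ l, x = 0) : l = List.replicate l.length 0 :=
  List.eq_replicate_iff.2 ⟨rfl, h⟩

theorem shape {M : List ℕ} (h : M.filter (fun c => decide (c ≠ 0)) = [1]) :
    ∃ i j, M = List.replicate i 0 ++ 1 :: List.replicate j 0 := by
  obtain ⟨l1, l2, rfl, h1, _, h3⟩ := List.filter_eq_cons_iff.1 h
  have e1 : ∀ x ∈ l1, x = 0 := by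
    intro x hx
    have := h1 x hx
    simpa using this
  have e2 : ∀ x ∈ l2, x = 0 := by
    intro x hx
    have := List.filter_eq_nil_iff.1 h3 x hx
    simpa using this
  refine ⟨l1.length, l2.length, ?_⟩
  rw [← all_zero e1, ← all_zero e2]

theorem perm01 {D : List ℕ} (h : D.Perm (List.range 1)) : zs D = [1] := by
  have h1 : D = [0] := List.perm_singleton.1 h
  rw [h1]
  rfl

/-- **KM1** -/
theorem km1 (ab : AbsStmt) (hPn : Pn2Stmt) (hShk : ShkStmt) : Km1Stmt := by
  intro β hmod hQ hiso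
  have b1 : bw [] [0] 1 = V5 2 5 1 1 0 0 0 := rfl
  have b2 : bw [0] [] 1 = V5 5 2 0 0 1 1 0 := rfl
  have p1 : (([] : List ℕ) ++ [0]).Perm (List.range 1) := List.Perm.refl _
  have p2 : (([0] : List ℕ) ++ []).Perm (List.range 1) := List.Perm.refl _
  obtain ⟨w, hw, hn⟩ := hPn β hmod hQ hiso [] [0] 1 le_rfl p1
  obtain ⟨w', hw', hn'⟩ := hPn β hmod hQ hiso [0] [] 1 le_rfl p2
  obtain ⟨M, D, a, b, f, rfl, hD, hM⟩ := hShk β hQ hiso [] [0] 1 p1 w hw
  obtain ⟨M', D', a', b', f', rfl, hD', hM'⟩ := hShk β hQ hiso [0] [] 1 p2 w' hw'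
  rw [perm01 hD] at hM
  rw [perm01 hD'] at hM'
  obtain ⟨i, j, rfl⟩ := shape hM
  obtain ⟨i', j', rfl⟩ := shape hM'
  have c1 : Wg [] [0] (List.replicate i 0 ++ 1 :: List.replicate j 0) a b f =
      V5 2 5 i j (a 1) (b 1) f := by
    simp [Wg, Rl, Bw, V5, List.append_assoc]
  have c2 : Wg [0] [] (List.replicate i' 0 ++ 1 :: List.replicate j' 0) a' b' f' =
      V5 5 2 (a' 1) (b' 1) i' j' f' := by
    simp [Wg, Rl, Bw, V5, List.append_assoc]
  rw [c1, b1] at hw
  rw [c1] at hn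
  rw [c2, b2] at hw'
  rw [c2] at hn'
  have hw2 := rr_sw' hw'
  rw [b1, b2]
  have key := fin ab hQ hw
    (by
      rintro ⟨h1, h2, h3, h4, h5⟩
      rw [h1, h2, h3, h4, h5] at hn
      apply hn
      refine ⟨rfl, fun e he => ?_⟩
      have he0 : e = 0 := by omega
      subst he0
      exact ⟨[], [1], [2, 1, 5], rfl, by simp⟩)
    (by
      rintro ⟨h1, h2, h3, h4, h5⟩
      rw [h1, h2, h3, h4, h5] at hn
      apply hn
      refine ⟨rfl, fun e he => ?_⟩
      have he0 : e = 0 := by omega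
      subst he0
      exact ⟨[1, 2], [1], [5], rfl, by simp⟩) hw2
    (by
      rintro ⟨h1, h2, h3, h4, h5⟩
      rw [h1, h2, h3, h4, h5] at hn'
      apply hn'
      refine ⟨rfl, fun e he => ?_⟩
      have he0 : e = 0 := by omega
      subst he0
      exact ⟨[1, 5], [1], [2], rfl, by simp⟩)
  exact ⟨key.1, kd_sw key.2⟩

end Pool.Agent.MVK.H23
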